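import Pool.Agent.N754.FV.Stm

/-!
There are only finitely many units of bounded height with a given value at a point (helper618).
-/

set_option autoImplicit false

open FF Pool.Agent.W603.LV

namespace Pool.Agent.N618.FV

theorem ptu : Pool.Agent.N754.FV.PTU := by
  intro k K _ _ _ _ _ _ S B P0 hP0 c hc
  classical
  have hbd : ∀ f : K, (∀ P ∉ S, P.ord f = 0) → hgt k f ≤ B → ∀ P ∈ S, -P.ord f ≤ B := by
    intro f h1 h2 P hP
    rw [hgt_finset f S (fun P h => by_contra fun hn => h (h1 P hn))] at h2
    have h3 := Finset.single_le_sum (f := fun P : Place k K => max (-P.ord f) 0)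
      (fun P _ => le_max_right _ _) hP
    exact (le_max_left (-P.ord f) 0).trans (h3.trans h2)
  refine Set.Finite.of_injOn (f := fun (f : K) (P : S) => P.1.ord f)
    (t := Set.univ.pi fun _ => Set.Icc (-B) B) ?_ ?_ (Set.Finite.pi fun _ => Set.finite_Icc _ _)
  · rintro f ⟨h0, h1, h2, -⟩ P -
    have h3 := hbd f h1 h2 P.1 P.2
    have h4 := hbd f⁻¹ (fun P hP => by rw [P.ord_inv, h1 P hP, neg_zero])
      (by rw [hgt_inv]; exact h2) P.1 P.2
    rw [P.1.ord_inv] at h4
    constructor
    · show -B ≤ P.1.ord f
      omega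
    · show P.1.ord f ≤ B
      omega
  · rintro f ⟨hf0, hf1, hf2, hf3⟩ g ⟨hg0, hg1, hg2, hg3⟩ hfg
    have hord : ∀ P : Place k K, P.ord (f / g) = 0 := by
      intro P
      rw [P.ord_div hf0 hg0]
      by_cases hP : P ∈ S
      · have : P.ord f = P.ord g := congrFun hfg ⟨P, hP⟩
        omega
      · rw [hf1 P hP, hg1 P hP, sub_zero]
    have hh : hgt k (f / g) ≤ 0 := by
      rw [hgt_finset (f / g) ∅ (fun P h => absurd (hord P) h)]
      simp
    obtain ⟨a, ha⟩ := const_of_hgt hh
    have hfa : f = algebraMap k K a * g := by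
      rw [← ha, div_mul_cancel₀ f hg0]
    have h1 : Ge P0 (0 + 1) (algebraMap k K a * (g - algebraMap k K c)) := (Ge.const a).mul hg3
    rw [zero_add] at h1
    have h2 := hf3.sub h1
    have h3 : f - algebraMap k K c - algebraMap k K a * (g - algebraMap k K c) =
        algebraMap k K (a * c - c) := by
      rw [hfa, map_sub, map_mul]
      ring
    rw [h3] at h2
    have h4 : a * c - c = 0 := by
      rcases h2 with h2 | h2
      · exact (map_eq_zero _).1 h2
      · by_contra hn
        rw [P0.ord_const hn] at h2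
        omega
    have h5 : a = 1 := by
      have : (a - 1) * c = 0 := by rw [sub_mul, one_mul]; exact h4
      rcases mul_eq_zero.1 this with h | h
      · exact sub_eq_zero.1 h
      · exact absurd h hc
    rw [hfa, h5, map_one, one_mul]

end Pool.Agent.N618.FV
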